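import Mathlib

set_option autoImplicit false

/-! A free pair of unit quaternions: `(3 + 4 i) / 5` and `(3 + 4 j) / 5`. -/

namespace Pool.Agent.R450.QF

open Quaternion

/-- the free group of rank two -/
abbrev F : Type := FreeGroup (Fin 2)

/-- the quaternion `a + b i + c j + d k` -/
def mkq {R : Type} [CommRing R] (a b c d : R) : ℍ[R] := ⟨a, b, c, d⟩

section
variable {R : Type} [CommRing R] (a b c d : R)
@[simp] theorem re_mkq : (mkq a b c d).re = a := rfl
@[simp] theorem imI_mkq : (mkq a b c d).imI = b := rfl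
@[simp] theorem imJ_mkq : (mkq a b c d).imJ = c := rfl
@[simp] theorem imK_mkq : (mkq a b c d).imK = d := rfl
end

/-- integral quaternions as real quaternions -/
def ofZ : ℍ[ℤ] →+* ℍ[ℝ] where
  toFun q := mkq q.re q.imI q.imJ q.imK
  map_one' := by ext <;> simp
  map_zero' := by ext <;> simp
  map_mul' a b := by ext <;> simp
  map_add' a b := by ext <;> simp

theorem ofZ_apply (q : ℍ[ℤ]) : ofZ q = mkq (q.re : ℝ) q.imI q.imJ q.imK := rfl

/-- the sign of a letter -/
def sgn (b : Bool) : ℤ := bif b then 1 else -1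

/-- the integral quaternion `3 ± 4 i`, `3 ± 4 j` of a letter -/
def ql (x : Fin 2 × Bool) : ℍ[ℤ] :=
  mkq 3 (if x.1 = 0 then 4 * sgn x.2 else 0) (if x.1 = 0 then 0 else 4 * sgn x.2) 0

theorem ql_re (x : Fin 2 × Bool) : (ql x).re = 3 := rfl

theorem normSq_ql (x : Fin 2 × Bool) : normSq (ql x) = 25 := by
  rw [Quaternion.normSq_def']
  obtain ⟨x, b⟩ := x
  fin_cases x <;> cases b <;> simp [ql, sgn]

theorem triple (p q : ℍ[ℤ]) (t n : ℤ) (ht : t = 2 * (p * q).re) (hn : n = normSq q) :
    q * p * q = t • q - n • star p := by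
  rw [Quaternion.normSq_def'] at hn
  rw [Quaternion.re_mul] at ht
  subst ht hn
  ext <;> simp only [Quaternion.re_mul, Quaternion.imI_mul, Quaternion.imJ_mul,
    Quaternion.imK_mul, Quaternion.re_sub, Quaternion.imI_sub, Quaternion.imJ_sub,
    Quaternion.imK_sub, Quaternion.re_smul, Quaternion.imI_smul, Quaternion.imJ_smul,
    Quaternion.imK_smul, Quaternion.re_star, Quaternion.imI_star, Quaternion.imJ_star,
    Quaternion.imK_star, smul_eq_mul] <;> ring

theorem coprime_letters (x y : Fin 2 × Bool) (h : x.1 = y.1 → x.2 = y.2) :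
    ∃ s r : ℤ, s * (2 * (ql x * ql y).re) + 5 * r = 1 := by
  obtain ⟨x1, x2⟩ := x
  obtain ⟨y1, y2⟩ := y
  simp only at h
  by_cases hxy : x1 = y1
  · obtain rfl := hxy
    obtain rfl := h rfl
    refine ⟨1, 3, ?_⟩
    fin_cases x1 <;> cases x2 <;> simp [ql, sgn]
  · refine ⟨2, -7, ?_⟩
    fin_cases x1 <;> fin_cases y1 <;> simp at hxy <;> simp [ql]

/-- the product of a reduced word is not divisible by `5` -/
theorem not_five (L : List (Fin 2 × Bool)) : L ≠ [] → FreeGroup.IsReduced L →
    ∀ y : ℍ[ℤ], (L.map ql).prod ≠ (5 : ℤ) • y := by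
  induction L with
  | nil => intro h; exact absurd rfl h
  | cons l1 L ih =>
    intro _ hred y hy
    cases L with
    | nil =>
      simp only [List.map_cons, List.map_nil, List.prod_cons, List.prod_nil, mul_one] at hy
      have h1 := congrArg (fun q : ℍ[ℤ] => q.re) hy
      simp only [ql_re, Quaternion.re_smul, smul_eq_mul] at h1
      omega
    | cons l2 L =>
      have hred' := hred
      unfold FreeGroup.IsReduced at hred'
      rw [List.isChain_cons_cons] at hred'
      have h2 : FreeGroup.IsReduced (l2 :: L) := hred'.2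
      obtain ⟨s, r, hsr⟩ := coprime_letters l1 l2 hred'.1
      simp only [List.map_cons, List.prod_cons] at hy
      set P := (L.map ql).prod with hP
      have h3 : (2 * (ql l1 * ql l2).re) • (ql l2 * P) =
          (5 : ℤ) • (ql l2 * y + (5 : ℤ) • (star (ql l1) * P)) := by
        have h4 : ql l2 * (ql l1 * (ql l2 * P)) = (ql l2 * ql l1 * ql l2) * P := by
          simp only [mul_assoc]
        rw [triple _ _ _ 25 rfl (normSq_ql l2).symm, hy, sub_mul, smul_mul_assoc, smul_mul_assoc,
          mul_smul_comm] at h4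
        rw [smul_add, smul_smul, h4]
        norm_num
      have h5 : ((l2 :: L).map ql).prod =
          (5 : ℤ) • (s • (ql l2 * y + (5 : ℤ) • (star (ql l1) * P)) + r • (ql l2 * P)) := by
        rw [List.map_cons, List.prod_cons, ← hP]
        calc ql l2 * P = (s * (2 * (ql l1 * ql l2).re) + 5 * r) • (ql l2 * P) := by
              rw [hsr, one_smul]
          _ = s • ((2 * (ql l1 * ql l2).re) • (ql l2 * P)) + (5 * r) • (ql l2 * P) := by
              rw [add_smul, mul_smul]
          _ = _ := by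
              rw [h3, smul_add (5 : ℤ) (s • _) _, smul_comm s (5 : ℤ) (ql l2 * y + _), mul_smul]
      exact ih (by simp) h2 _ h5

/-- the two generators -/
noncomputable def gen (x : Fin 2) : unitary ℍ[ℝ] :=
  ⟨mkq (3 / 5) (if x = 0 then 4 / 5 else 0) (if x = 0 then 0 else 4 / 5) 0, by
    rw [Unitary.mem_iff]
    fin_cases x <;> constructor <;> ext <;> simp <;> norm_num⟩

/-- the homomorphism to the unit quaternions -/
noncomputable def S : F →* unitary ℍ[ℝ] := FreeGroup.lift gen

theorem letter (x : Fin 2 × Bool) :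
    (5 : ℝ) • (((bif x.2 then gen x.1 else (gen x.1)⁻¹ : unitary ℍ[ℝ])) : ℍ[ℝ]) = ofZ (ql x) := by
  obtain ⟨x, b⟩ := x
  have h : ∀ u : unitary ℍ[ℝ], ((u⁻¹ : unitary ℍ[ℝ]) : ℍ[ℝ]) = star (u : ℍ[ℝ]) := fun u => rfl
  cases b <;> fin_cases x <;> simp only [cond_true, cond_false, h] <;>
    ext <;> simp [gen, ofZ_apply, ql, sgn] <;> norm_num

theorem word (L : List (Fin 2 × Bool)) :
    ((5 : ℝ) ^ L.length) • ((S (FreeGroup.mk L) : unitary ℍ[ℝ]) : ℍ[ℝ]) =
      ofZ ((L.map ql).prod) := by
  unfold S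
  rw [FreeGroup.lift_mk]
  induction L with
  | nil => simp
  | cons l L ih =>
    rw [List.map_cons, List.prod_cons, List.map_cons, List.prod_cons, map_mul, ← letter, ← ih,
      List.length_cons, pow_succ']
    rw [smul_mul_smul_comm]
    rfl

theorem S_injective : Function.Injective S := by
  rw [injective_iff_map_eq_one]
  intro w hw
  by_contra hne
  have hL : w.toWord ≠ [] := by
    rw [Ne, FreeGroup.toWord_eq_nil_iff]
    exact hne
  have h1 := word w.toWord
  rw [FreeGroup.mk_toWord, hw] at h1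
  obtain ⟨k, hk⟩ : ∃ k, w.toWord.length = k + 1 :=
    ⟨w.toWord.length - 1, by
      have := List.length_pos_iff.2 hL
      omega⟩
  apply not_five w.toWord hL FreeGroup.isReduced_toWord ((5 : ℤ) ^ k • 1)
  have hinj : Function.Injective ofZ := by
    intro a b hab
    have e1 := congrArg (fun q : ℍ[ℝ] => q.re) hab
    have e2 := congrArg (fun q : ℍ[ℝ] => q.imI) hab
    have e3 := congrArg (fun q : ℍ[ℝ] => q.imJ) hab
    have e4 := congrArg (fun q : ℍ[ℝ] => q.imK) hab
    simp only [ofZ_apply, re_mkq, imI_mkq, imJ_mkq, imK_mkq] at e1 e2 e3 e4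
    ext
    · exact_mod_cast e1
    · exact_mod_cast e2
    · exact_mod_cast e3
    · exact_mod_cast e4
  apply hinj
  rw [← h1, hk, smul_smul, ← pow_succ', ofZ_apply]
  ext <;> simp only [re_mkq, imI_mkq, imJ_mkq, imK_mkq, Quaternion.re_smul, Quaternion.imI_smul,
    Quaternion.imJ_smul, Quaternion.imK_smul, smul_eq_mul, OneMemClass.coe_one, Quaternion.re_one,
    Quaternion.imI_one, Quaternion.imJ_one, Quaternion.imK_one] <;> push_cast <;> ring

end Pool.Agent.R450.QF
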