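import Mathlib
import Pool.Agent.R450.QF.Free

set_option autoImplicit false

/-! The building blocks: orthogonal representations of the free group by quaternions. -/

namespace Pool.Agent.R450.QF

open Quaternion Matrix

/-- the matrix of `v ↦ q v` -/
def Lm (q : ℍ[ℝ]) : Matrix (Fin 4) (Fin 4) ℝ :=
  !![q.re, -q.imI, -q.imJ, -q.imK; q.imI, q.re, -q.imK, q.imJ; q.imJ, q.imK, q.re, -q.imI;
    q.imK, -q.imJ, q.imI, q.re]

/-- the matrix of `v ↦ v q` -/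
def Rm (q : ℍ[ℝ]) : Matrix (Fin 4) (Fin 4) ℝ :=
  !![q.re, -q.imI, -q.imJ, -q.imK; q.imI, q.re, q.imK, -q.imJ; q.imJ, -q.imK, q.re, q.imI;
    q.imK, q.imJ, -q.imI, q.re]

/-- the matrix of `v ↦ q v q⁻¹` on the imaginary quaternions (for a unit quaternion `q`) -/
def Cm (q : ℍ[ℝ]) : Matrix (Fin 3) (Fin 3) ℝ :=
  !![q.re ^ 2 + q.imI ^ 2 - q.imJ ^ 2 - q.imK ^ 2, 2 * (q.imI * q.imJ - q.re * q.imK),
      2 * (q.imI * q.imK + q.re * q.imJ);
    2 * (q.imI * q.imJ + q.re * q.imK), q.re ^ 2 - q.imI ^ 2 + q.imJ ^ 2 - q.imK ^ 2,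
      2 * (q.imJ * q.imK - q.re * q.imI);
    2 * (q.imI * q.imK - q.re * q.imJ), 2 * (q.imJ * q.imK + q.re * q.imI),
      q.re ^ 2 - q.imI ^ 2 - q.imJ ^ 2 + q.imK ^ 2]

/-- the quaternion of a vector -/
def v4 (x : Fin 4 → ℝ) : ℍ[ℝ] := mkq (x 0) (x 1) (x 2) (x 3)

/-- the imaginary quaternion of a vector -/
def v3 (x : Fin 3 → ℝ) : ℍ[ℝ] := mkq 0 (x 0) (x 1) (x 2)

theorem v4_L (p : ℍ[ℝ]) (x : Fin 4 → ℝ) : v4 (Lm p *ᵥ x) = p * v4 x := by
  ext <;> simp [v4, Lm, Matrix.mulVec, dotProduct, Fin.sum_univ_four] <;> ring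

theorem v4_R (p : ℍ[ℝ]) (x : Fin 4 → ℝ) : v4 (Rm p *ᵥ x) = v4 x * p := by
  ext <;> simp [v4, Rm, Matrix.mulVec, dotProduct, Fin.sum_univ_four] <;> ring

theorem v3_C (p : ℍ[ℝ]) (x : Fin 3 → ℝ) : v3 (Cm p *ᵥ x) = p * v3 x * star p := by
  ext <;> simp [v3, Cm, Matrix.mulVec, dotProduct, Fin.sum_univ_three] <;> ring

theorem L_mul (p q : ℍ[ℝ]) : Lm (p * q) = Lm p * Lm q := by
  ext i j
  fin_cases i <;> fin_cases j <;> simp [Lm, Matrix.mul_apply, Fin.sum_univ_four] <;> ring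

theorem R_mul (p q : ℍ[ℝ]) : Rm (p * q) = Rm q * Rm p := by
  ext i j
  fin_cases i <;> fin_cases j <;> simp [Rm, Matrix.mul_apply, Fin.sum_univ_four] <;> ring

theorem LR_comm (p q : ℍ[ℝ]) : Lm p * Rm q = Rm q * Lm p := by
  ext i j
  fin_cases i <;> fin_cases j <;> simp [Lm, Rm, Matrix.mul_apply, Fin.sum_univ_four] <;> ring

theorem C_mul (p q : ℍ[ℝ]) : Cm (p * q) = Cm p * Cm q := by
  ext i j
  fin_cases i <;> fin_cases j <;> simp [Cm, Matrix.mul_apply, Fin.sum_univ_three] <;> ring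

theorem L_one : Lm 1 = 1 := by
  ext i j
  fin_cases i <;> fin_cases j <;> simp [Lm]

theorem R_one : Rm 1 = 1 := by
  ext i j
  fin_cases i <;> fin_cases j <;> simp [Rm]

theorem C_one : Cm 1 = 1 := by
  ext i j
  fin_cases i <;> fin_cases j <;> simp [Cm]

theorem unit_norm (q : unitary ℍ[ℝ]) :
    (q : ℍ[ℝ]).re ^ 2 + (q : ℍ[ℝ]).imI ^ 2 + (q : ℍ[ℝ]).imJ ^ 2 + (q : ℍ[ℝ]).imK ^ 2 = 1 := by
  have h := (Unitary.mem_iff.1 q.2).2
  have h1 := congrArg (fun q : ℍ[ℝ] => q.re) h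
  simp only [Quaternion.re_mul, Quaternion.re_star, Quaternion.imI_star, Quaternion.imJ_star,
    Quaternion.imK_star, Quaternion.re_one] at h1
  linear_combination h1

theorem L_mem (q : unitary ℍ[ℝ]) : Lm q ∈ specialOrthogonalGroup (Fin 4) ℝ := by
  have h := unit_norm q
  rw [mem_specialOrthogonalGroup_iff, mem_orthogonalGroup_iff]
  generalize (q : ℍ[ℝ]) = q at *
  constructor
  · ext i j
    fin_cases i <;> fin_cases j <;> simp [Lm, Matrix.mul_apply, Fin.sum_univ_four] <;>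
      first | ring1 | linear_combination h
  · simp [Lm, Matrix.det_succ_row_zero, Fin.sum_univ_succ, Fin.succAbove]
    linear_combination (q.re ^ 2 + q.imI ^ 2 + q.imJ ^ 2 + q.imK ^ 2 + 1) * h

theorem R_mem (q : unitary ℍ[ℝ]) : Rm q ∈ specialOrthogonalGroup (Fin 4) ℝ := by
  have h := unit_norm q
  rw [mem_specialOrthogonalGroup_iff, mem_orthogonalGroup_iff]
  generalize (q : ℍ[ℝ]) = q at *
  constructor
  · ext i j
    fin_cases i <;> fin_cases j <;> simp [Rm, Matrix.mul_apply, Fin.sum_univ_four] <;>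
      first | ring1 | linear_combination h
  · simp [Rm, Matrix.det_succ_row_zero, Fin.sum_univ_succ, Fin.succAbove]
    linear_combination (q.re ^ 2 + q.imI ^ 2 + q.imJ ^ 2 + q.imK ^ 2 + 1) * h

theorem C_mem (q : unitary ℍ[ℝ]) : Cm q ∈ specialOrthogonalGroup (Fin 3) ℝ := by
  have h := unit_norm q
  rw [mem_specialOrthogonalGroup_iff, mem_orthogonalGroup_iff]
  generalize (q : ℍ[ℝ]) = q at *
  constructor
  · ext i j
    fin_cases i <;> fin_cases j <;> simp [Cm, Matrix.mul_apply, Fin.sum_univ_three] <;>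
      first
      | ring1
      | linear_combination (q.re ^ 2 + q.imI ^ 2 + q.imJ ^ 2 + q.imK ^ 2 + 1) * h
  · simp [Cm, Matrix.det_fin_three]
    linear_combination ((q.re ^ 2 + q.imI ^ 2 + q.imJ ^ 2 + q.imK ^ 2) ^ 2 +
      (q.re ^ 2 + q.imI ^ 2 + q.imJ ^ 2 + q.imK ^ 2) + 1) * h

end Pool.Agent.R450.QF
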