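import Mathlib
import Pool.Agent.R450.QF.Blocks

set_option autoImplicit false

/-! Locally commutative representations of the free group of rank two. -/

namespace Pool.Agent.R450.QF

open Quaternion Matrix

/-- a representation by matrices of determinant one is locally commutative: two elements of `F`
with a common nonzero fixed vector commute -/
def LC {ι : Type} [Fintype ι] [DecidableEq ι] (ρ : F →* Matrix ι ι ℝ) : Prop :=
  (∀ w, ρ w ∈ specialOrthogonalGroup ι ℝ) ∧
    ∀ (w₁ w₂ : F) (x : ι → ℝ), x ≠ 0 → ρ w₁ *ᵥ x = x → ρ w₂ *ᵥ x = x → w₁ * w₂ = w₂ * w₁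

/-- some element has the eigenvalue `-1` -/
def Neg {ι : Type} [Fintype ι] [DecidableEq ι] (ρ : F →* Matrix ι ι ℝ) : Prop :=
  ∃ (w : F) (x : ι → ℝ), x ≠ 0 ∧ ρ w *ᵥ x = -x

/-- faithful, locally commutative, with an eigenvalue `-1` -/
def Good (ι : Type) [Fintype ι] [DecidableEq ι] : Prop :=
  ∃ ρ : F →* Matrix ι ι ℝ, Function.Injective ρ ∧ LC ρ ∧ Neg ρ

/-- direct sum -/
def dsum {ι κ : Type} [Fintype ι] [DecidableEq ι] [Fintype κ] [DecidableEq κ]
    (ρ : F →* Matrix ι ι ℝ) (τ : F →* Matrix κ κ ℝ) : F →* Matrix (ι ⊕ κ) (ι ⊕ κ) ℝ where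
  toFun w := fromBlocks (ρ w) 0 0 (τ w)
  map_one' := by rw [map_one, map_one, fromBlocks_one]
  map_mul' a b := by
    rw [map_mul, map_mul, fromBlocks_multiply]
    simp

section
variable {ι κ : Type} [Fintype ι] [DecidableEq ι] [Fintype κ] [DecidableEq κ]

theorem dsum_mem {A : Matrix ι ι ℝ} {B : Matrix κ κ ℝ} (hA : A ∈ specialOrthogonalGroup ι ℝ)
    (hB : B ∈ specialOrthogonalGroup κ ℝ) :
    fromBlocks A 0 0 B ∈ specialOrthogonalGroup (ι ⊕ κ) ℝ := by
  rw [mem_specialOrthogonalGroup_iff, mem_orthogonalGroup_iff] at *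
  constructor
  · rw [fromBlocks_transpose, fromBlocks_multiply]
    simp [hA.1, hB.1]
  · rw [det_fromBlocks_zero₂₁, hA.2, hB.2, one_mul]

theorem dsum_fix {A : Matrix ι ι ℝ} {B : Matrix κ κ ℝ} {x : ι ⊕ κ → ℝ} {c : ℝ}
    (h : fromBlocks A 0 0 B *ᵥ x = c • x) :
    A *ᵥ (x ∘ Sum.inl) = c • (x ∘ Sum.inl) ∧ B *ᵥ (x ∘ Sum.inr) = c • (x ∘ Sum.inr) := by
  rw [fromBlocks_mulVec] at h
  constructor
  · ext i
    have := congrFun h (Sum.inl i)
    simpa using this
  · ext i
    have := congrFun h (Sum.inr i)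
    simpa using this

theorem LC.dsum {ρ : F →* Matrix ι ι ℝ} {τ : F →* Matrix κ κ ℝ} (h₁ : LC ρ) (h₂ : LC τ) :
    LC (dsum ρ τ) := by
  refine ⟨fun w => dsum_mem (h₁.1 w) (h₂.1 w), ?_⟩
  intro w₁ w₂ x hx e₁ e₂
  have f₁ := dsum_fix (c := 1) (x := x) (A := ρ w₁) (B := τ w₁) (by rw [one_smul]; exact e₁)
  have f₂ := dsum_fix (c := 1) (x := x) (A := ρ w₂) (B := τ w₂) (by rw [one_smul]; exact e₂)
  rw [one_smul, one_smul] at f₁ f₂
  by_cases hl : x ∘ Sum.inl = 0
  · have hr : x ∘ Sum.inr ≠ 0 := by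
      intro hr
      apply hx
      ext i
      cases i with
      | inl i => exact congrFun hl i
      | inr i => exact congrFun hr i
    exact h₂.2 w₁ w₂ _ hr f₁.2 f₂.2
  · exact h₁.2 w₁ w₂ _ hl f₁.1 f₂.1

theorem Good.dsum {ρ : F →* Matrix κ κ ℝ} (h : Good ι) (h₂ : LC ρ) : Good (ι ⊕ κ) := by
  obtain ⟨ρ₁, hinj, h₁, w, x, hx, hwx⟩ := h
  refine ⟨QF.dsum ρ₁ ρ, ?_, h₁.dsum h₂, w, Sum.elim x 0, ?_, ?_⟩
  · intro a b hab
    apply hinj
    have : fromBlocks (ρ₁ a) 0 0 (ρ a) = fromBlocks (ρ₁ b) 0 0 (ρ b) := hab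
    exact ((fromBlocks_inj).1 this).1
  · intro h0
    apply hx
    ext i
    have := congrFun h0 (Sum.inl i)
    simpa using this
  · change fromBlocks (ρ₁ w) 0 0 (ρ w) *ᵥ Sum.elim x 0 = _
    rw [fromBlocks_mulVec]
    ext i
    cases i with
    | inl i => simp [hwx]
    | inr i => simp

theorem Good.reindex (e : ι ≃ κ) (h : Good ι) : Good κ := by
  obtain ⟨ρ, hinj, ⟨hmem, hlc⟩, w, x, hx, hwx⟩ := h
  let τ : F →* Matrix κ κ ℝ :=
    { toFun := fun w => (ρ w).submatrix e.symm e.symm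
      map_one' := by rw [map_one, submatrix_one_equiv]
      map_mul' := fun a b => by rw [map_mul, submatrix_mul_equiv] }
  have hτ : ∀ w, τ w = (ρ w).submatrix e.symm e.symm := fun _ => rfl
  have hact : ∀ (w : F) (y : κ → ℝ), τ w *ᵥ y = (ρ w *ᵥ (y ∘ e)) ∘ e.symm := by
    intro w y
    rw [hτ, submatrix_mulVec_equiv]
    rfl
  refine ⟨τ, ?_, ⟨?_, ?_⟩, w, x ∘ e.symm, ?_, ?_⟩
  · intro a b hab
    apply hinj
    ext i j
    have := congrFun (congrFun hab (e i)) (e j)
    simpa [hτ] using this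
  · intro w
    have h := hmem w
    rw [mem_specialOrthogonalGroup_iff, mem_orthogonalGroup_iff] at h ⊢
    rw [hτ]
    constructor
    · rw [transpose_submatrix, submatrix_mul_equiv, h.1, submatrix_one_equiv]
    · rw [det_submatrix_equiv_self, h.2]
  · intro w₁ w₂ y hy e₁ e₂
    rw [hact] at e₁ e₂
    apply hlc w₁ w₂ (y ∘ e)
    · intro h0
      apply hy
      ext i
      have := congrFun h0 (e.symm i)
      simpa using this
    · ext i
      have := congrFun e₁ (e i)
      simpa using this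
    · ext i
      have := congrFun e₂ (e i)
      simpa using this
  · intro h0
    apply hx
    ext i
    have := congrFun h0 (e i)
    simpa using this
  · rw [hact]
    have : (x ∘ e.symm) ∘ e = x := by ext i; simp
    rw [this, hwx]
    ext i
    simp

end

/-! ### commutation -/

theorem v4_ne {x : Fin 4 → ℝ} (hx : x ≠ 0) : v4 x ≠ 0 := by
  intro h
  apply hx
  ext i
  have h0 := congrArg (fun q : ℍ[ℝ] => q.re) h
  have h1 := congrArg (fun q : ℍ[ℝ] => q.imI) h
  have h2 := congrArg (fun q : ℍ[ℝ] => q.imJ) h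
  have h3 := congrArg (fun q : ℍ[ℝ] => q.imK) h
  simp only [v4, re_mkq, imI_mkq, imJ_mkq, imK_mkq] at h0 h1 h2 h3
  fin_cases i
  · exact h0
  · exact h1
  · exact h2
  · exact h3

theorem v3_ne {x : Fin 3 → ℝ} (hx : x ≠ 0) : v3 x ≠ 0 := by
  intro h
  apply hx
  ext i
  have h1 := congrArg (fun q : ℍ[ℝ] => q.imI) h
  have h2 := congrArg (fun q : ℍ[ℝ] => q.imJ) h
  have h3 := congrArg (fun q : ℍ[ℝ] => q.imK) h
  simp only [v3, imI_mkq, imJ_mkq, imK_mkq] at h1 h2 h3
  fin_cases i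
  · exact h1
  · exact h2
  · exact h3

/-- two quaternions which commute with a nonzero imaginary quaternion commute -/
theorem comm_of_comm {p q v : ℍ[ℝ]} (hv : v ≠ 0) (hre : v.re = 0) (hp : p * v = v * p)
    (hq : q * v = v * q) : p * q = q * p := by
  have p1 := congrArg (fun q : ℍ[ℝ] => q.imI) hp
  have p2 := congrArg (fun q : ℍ[ℝ] => q.imJ) hp
  have p3 := congrArg (fun q : ℍ[ℝ] => q.imK) hp
  have q1 := congrArg (fun q : ℍ[ℝ] => q.imI) hq
  have q2 := congrArg (fun q : ℍ[ℝ] => q.imJ) hq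
  have q3 := congrArg (fun q : ℍ[ℝ] => q.imK) hq
  simp only [Quaternion.imI_mul, Quaternion.imJ_mul, Quaternion.imK_mul, hre] at p1 p2 p3 q1 q2 q3
  have P1 : p.imJ * v.imK - p.imK * v.imJ = 0 := by linear_combination (1 / 2) * p1
  have P2 : p.imK * v.imI - p.imI * v.imK = 0 := by linear_combination (1 / 2) * p2
  have P3 : p.imI * v.imJ - p.imJ * v.imI = 0 := by linear_combination (1 / 2) * p3
  have Q1 : q.imJ * v.imK - q.imK * v.imJ = 0 := by linear_combination (1 / 2) * q1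
  have Q2 : q.imK * v.imI - q.imI * v.imK = 0 := by linear_combination (1 / 2) * q2
  have Q3 : q.imI * v.imJ - q.imJ * v.imI = 0 := by linear_combination (1 / 2) * q3
  have hne : v.imI ≠ 0 ∨ v.imJ ≠ 0 ∨ v.imK ≠ 0 := by
    by_contra h
    push Not at h
    apply hv
    ext <;> simp [h, hre]
  have X : p.imJ * q.imK - p.imK * q.imJ = 0 := by
    rcases hne with h | h | h <;> apply mul_left_cancel₀ h
    · linear_combination -p.imI * Q1 - q.imK * P3 - q.imJ * P2
    · linear_combination q.imJ * P1 - p.imJ * Q1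
    · linear_combination q.imK * P1 - p.imK * Q1
  have Y : p.imK * q.imI - p.imI * q.imK = 0 := by
    rcases hne with h | h | h <;> apply mul_left_cancel₀ h
    · linear_combination q.imI * P2 - p.imI * Q2
    · linear_combination -p.imJ * Q2 - q.imI * P1 - q.imK * P3
    · linear_combination q.imK * P2 - p.imK * Q2
  have Z : p.imI * q.imJ - p.imJ * q.imI = 0 := by
    rcases hne with h | h | h <;> apply mul_left_cancel₀ h
    · linear_combination q.imI * P3 - p.imI * Q3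
    · linear_combination q.imJ * P3 - p.imJ * Q3
    · linear_combination -p.imK * Q3 - q.imI * P1 - q.imJ * P2
  ext
  · simp only [Quaternion.re_mul]; ring
  · simp only [Quaternion.imI_mul]
    linear_combination 2 * X
  · simp only [Quaternion.imJ_mul]
    linear_combination 2 * Y
  · simp only [Quaternion.imK_mul]
    linear_combination 2 * Z

theorem S_comm {w₁ w₂ : F} (h : ((S w₁ : unitary ℍ[ℝ]) : ℍ[ℝ]) * (S w₂ : unitary ℍ[ℝ]) =
    ((S w₂ : unitary ℍ[ℝ]) : ℍ[ℝ]) * (S w₁ : unitary ℍ[ℝ])) : w₁ * w₂ = w₂ * w₁ := by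
  apply S_injective
  rw [map_mul, map_mul]
  exact Subtype.ext h

theorem star_mul_self' (q : unitary ℍ[ℝ]) : star (q : ℍ[ℝ]) * (q : ℍ[ℝ]) = 1 :=
  (Unitary.mem_iff.1 q.2).1

/-! ### dimension 3 -/

/-- the representation on the imaginary quaternions -/
noncomputable def rho3 : F →* Matrix (Fin 3) (Fin 3) ℝ where
  toFun w := Cm (S w : unitary ℍ[ℝ])
  map_one' := by rw [map_one]; exact C_one
  map_mul' a b := by rw [map_mul]; exact C_mul _ _

theorem fix3 {q : unitary ℍ[ℝ]} {x : Fin 3 → ℝ} (h : Cm q *ᵥ x = x) :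
    (q : ℍ[ℝ]) * v3 x = v3 x * q := by
  have h1 := congrArg v3 h
  rw [v3_C] at h1
  have h2 := congrArg (fun y => y * (q : ℍ[ℝ])) h1
  simp only [mul_assoc, star_mul_self', mul_one] at h2
  exact h2

theorem rho3_LC : LC rho3 := by
  refine ⟨fun w => C_mem _, ?_⟩
  intro w₁ w₂ x hx e₁ e₂
  exact S_comm (comm_of_comm (v3_ne hx) rfl (fix3 e₁) (fix3 e₂))

/-! ### dimension 6 -/

/-- the character with value `-1` at the first generator and `1` at the second one -/
noncomputable def eps : F →* ℤˣ := FreeGroup.lift (fun x => if x = 0 then -1 else 1)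

/-- the six-dimensional representation -/
noncomputable def rho6 : F →* Matrix (Fin 3 ⊕ Fin 3) (Fin 3 ⊕ Fin 3) ℝ where
  toFun w := (((eps w : ℤˣ) : ℤ) : ℝ) • dsum rho3 rho3 w
  map_one' := by simp
  map_mul' a b := by
    rw [map_mul, map_mul, smul_mul_smul_comm]
    push_cast
    rfl

theorem rho6_apply (w : F) : rho6 w = (((eps w : ℤˣ) : ℤ) : ℝ) • dsum rho3 rho3 w := rfl

theorem eps_cases (w : F) : eps w = 1 ∨ eps w = -1 := Int.units_eq_one_or _

theorem rho6_mem (w : F) : rho6 w ∈ specialOrthogonalGroup (Fin 3 ⊕ Fin 3) ℝ := by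
  have h := (rho3_LC.dsum rho3_LC).1 w
  rw [rho6_apply]
  rcases eps_cases w with he | he
  · rw [he]; simpa using h
  · rw [he]
    rw [mem_specialOrthogonalGroup_iff, mem_orthogonalGroup_iff] at h ⊢
    constructor
    · simp [h.1]
    · simp [det_neg, h.2]
      norm_num

/-- an anticommuting pair -/
theorem anti {q : unitary ℍ[ℝ]} {v : ℍ[ℝ]} (hv : v ≠ 0) (hre : v.re = 0)
    (h : (q : ℍ[ℝ]) * v = -(v * q)) : (q : ℍ[ℝ]) ^ 4 = 1 := by
  have hn := unit_norm q
  generalize (q : ℍ[ℝ]) = q at *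
  have p0 := congrArg (fun q : ℍ[ℝ] => q.re) h
  have p1 := congrArg (fun q : ℍ[ℝ] => q.imI) h
  have p2 := congrArg (fun q : ℍ[ℝ] => q.imJ) h
  have p3 := congrArg (fun q : ℍ[ℝ] => q.imK) h
  simp only [Quaternion.re_mul, Quaternion.re_neg, Quaternion.imI_neg, Quaternion.imJ_neg,
    Quaternion.imK_neg, Quaternion.imI_mul, Quaternion.imJ_mul, Quaternion.imK_mul, hre]
    at p0 p1 p2 p3
  have hne : v.imI ≠ 0 ∨ v.imJ ≠ 0 ∨ v.imK ≠ 0 := by
    by_contra h
    push Not at h
    apply hv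
    ext <;> simp [h, hre]
  have hq : q.re = 0 := by
    rcases hne with h | h | h <;> apply mul_left_cancel₀ h
    · linear_combination (1 / 2) * p1
    · linear_combination (1 / 2) * p2
    · linear_combination (1 / 2) * p3
  have h2 : q * q = -1 := by
    ext
    · simp only [Quaternion.re_mul, Quaternion.re_neg, Quaternion.re_one]
      rw [hq] at hn ⊢
      linear_combination -hn
    · simp only [Quaternion.imI_mul, Quaternion.imI_neg, Quaternion.imI_one]
      rw [hq]; ring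
    · simp only [Quaternion.imJ_mul, Quaternion.imJ_neg, Quaternion.imJ_one]
      rw [hq]; ring
    · simp only [Quaternion.imK_mul, Quaternion.imK_neg, Quaternion.imK_one]
      rw [hq]; ring
  have : q ^ 4 = (q * q) * (q * q) := by
    rw [pow_succ, pow_succ, pow_succ, pow_one]
    simp only [mul_assoc]
  rw [this, h2]
  norm_num

theorem fix6 {w : F} {x : Fin 3 → ℝ} (hx : x ≠ 0)
    (h : (((eps w : ℤˣ) : ℤ) : ℝ) • (rho3 w *ᵥ x) = x) :
    ((S w : unitary ℍ[ℝ]) : ℍ[ℝ]) * v3 x = v3 x * (S w : unitary ℍ[ℝ]) := by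
  rcases eps_cases w with he | he
  · rw [he] at h
    have h1 : rho3 w *ᵥ x = x := by simpa using h
    exact fix3 h1
  · exfalso
    rw [he] at h
    have h1 : rho3 w *ᵥ x = -x := by
      have : -(rho3 w *ᵥ x) = x := by simpa using h
      exact neg_eq_iff_eq_neg.1 this
    have h2 : Cm (S w : unitary ℍ[ℝ]) *ᵥ x = -x := h1
    have h3 := congrArg v3 h2
    rw [v3_C] at h3
    have h4 := congrArg (fun y => y * ((S w : unitary ℍ[ℝ]) : ℍ[ℝ])) h3
    simp only [mul_assoc, star_mul_self', mul_one] at h4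
    have h5 : v3 (-x) = -v3 x := by
      ext <;> simp [v3]
    rw [h5, neg_mul] at h4
    have h6 := anti (v3_ne hx) rfl h4
    have h7 : w ^ 4 = 1 := by
      apply S_injective
      rw [map_pow, map_one]
      exact Subtype.ext (by rw [SubmonoidClass.coe_pow, h6]; rfl)
    have h8 : w = 1 := (pow_eq_one_iff_left (by norm_num)).1 h7
    rw [h8, map_one] at he
    exact absurd he (by decide)

theorem rho6_LC : LC rho6 := by
  refine ⟨rho6_mem, ?_⟩
  have key : ∀ (w : F) (x : Fin 3 ⊕ Fin 3 → ℝ), rho6 w *ᵥ x = x →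
      (((eps w : ℤˣ) : ℤ) : ℝ) • (rho3 w *ᵥ (x ∘ Sum.inl)) = x ∘ Sum.inl ∧
      (((eps w : ℤˣ) : ℤ) : ℝ) • (rho3 w *ᵥ (x ∘ Sum.inr)) = x ∘ Sum.inr := by
    intro w x h
    have h1 : (((eps w : ℤˣ) : ℤ) : ℝ) • (fromBlocks (rho3 w) 0 0 (rho3 w) *ᵥ x) = x := by
      rw [← smul_mulVec]
      exact h
    rw [fromBlocks_mulVec] at h1
    constructor
    · ext i
      have := congrFun h1 (Sum.inl i)
      simpa using this
    · ext i
      have := congrFun h1 (Sum.inr i)
      simpa using this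
  intro w₁ w₂ x hx e₁ e₂
  have f₁ := key w₁ x e₁
  have f₂ := key w₂ x e₂
  by_cases hl : x ∘ Sum.inl = 0
  · have hr : x ∘ Sum.inr ≠ 0 := by
      intro hr
      apply hx
      ext i
      cases i with
      | inl i => exact congrFun hl i
      | inr i => exact congrFun hr i
    exact S_comm (comm_of_comm (v3_ne hr) rfl (fix6 hr f₁.2) (fix6 hr f₂.2))
  · exact S_comm (comm_of_comm (v3_ne hl) rfl (fix6 hl f₁.1) (fix6 hl f₂.1))

/-- an element of `F` whose quaternion commutes with `i` and `j` is trivial -/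
theorem eq_one_of_central {w : F}
    (h₁ : ((S w : unitary ℍ[ℝ]) : ℍ[ℝ]) * mkq (0 : ℝ) 1 0 0 =
      mkq (0 : ℝ) 1 0 0 * ((S w : unitary ℍ[ℝ]) : ℍ[ℝ]))
    (h₂ : ((S w : unitary ℍ[ℝ]) : ℍ[ℝ]) * mkq (0 : ℝ) 0 1 0 =
      mkq (0 : ℝ) 0 1 0 * ((S w : unitary ℍ[ℝ]) : ℍ[ℝ])) :
    w = 1 := by
  have hn := unit_norm (S w)
  have hsq : ((S w : unitary ℍ[ℝ]) : ℍ[ℝ]) * (S w : unitary ℍ[ℝ]) = 1 := by
    generalize ((S w : unitary ℍ[ℝ]) : ℍ[ℝ]) = q at *
    have p1 := congrArg (fun q : ℍ[ℝ] => q.imJ) h₁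
    have p2 := congrArg (fun q : ℍ[ℝ] => q.imK) h₁
    have p3 := congrArg (fun q : ℍ[ℝ] => q.imK) h₂
    simp only [Quaternion.imJ_mul, Quaternion.imK_mul, re_mkq, imI_mkq, imJ_mkq, imK_mkq]
      at p1 p2 p3
    have q1 : q.imK = 0 := by linear_combination (1 / 2) * p1
    have q2 : q.imJ = 0 := by linear_combination (-1 / 2) * p2
    have q3 : q.imI = 0 := by linear_combination (1 / 2) * p3
    rw [q1, q2, q3] at hn
    ext
    · simp only [Quaternion.re_mul, Quaternion.re_one]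
      rw [q1, q2, q3]
      linear_combination hn
    · simp only [Quaternion.imI_mul, Quaternion.imI_one]
      rw [q1, q2, q3]; ring
    · simp only [Quaternion.imJ_mul, Quaternion.imJ_one]
      rw [q1, q2, q3]; ring
    · simp only [Quaternion.imK_mul, Quaternion.imK_one]
      rw [q1, q2, q3]; ring
  have h7 : w ^ 2 = 1 := by
    apply S_injective
    rw [map_pow, map_one, pow_two]
    exact Subtype.ext hsq
  exact (pow_eq_one_iff_left (by norm_num)).1 h7

theorem v3_inj {x y : Fin 3 → ℝ} (h : v3 x = v3 y) : x = y := by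
  ext i
  have h1 := congrArg (fun q : ℍ[ℝ] => q.imI) h
  have h2 := congrArg (fun q : ℍ[ℝ] => q.imJ) h
  have h3 := congrArg (fun q : ℍ[ℝ] => q.imK) h
  simp only [v3, imI_mkq, imJ_mkq, imK_mkq] at h1 h2 h3
  fin_cases i
  · exact h1
  · exact h2
  · exact h3

theorem v4_inj {x y : Fin 4 → ℝ} (h : v4 x = v4 y) : x = y := by
  ext i
  have h0 := congrArg (fun q : ℍ[ℝ] => q.re) h
  have h1 := congrArg (fun q : ℍ[ℝ] => q.imI) h
  have h2 := congrArg (fun q : ℍ[ℝ] => q.imJ) h
  have h3 := congrArg (fun q : ℍ[ℝ] => q.imK) h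
  simp only [v4, re_mkq, imI_mkq, imJ_mkq, imK_mkq] at h0 h1 h2 h3
  fin_cases i
  · exact h0
  · exact h1
  · exact h2
  · exact h3

theorem S_of_zero : ((S (FreeGroup.of 0) : unitary ℍ[ℝ]) : ℍ[ℝ]) = mkq (3 / 5) (4 / 5) 0 0 := by
  unfold S
  rw [FreeGroup.lift_apply_of]
  simp [gen]

theorem good6 : Good (Fin 3 ⊕ Fin 3) := by
  refine ⟨rho6, ?_, rho6_LC, FreeGroup.of 0, Sum.elim ![1, 0, 0] 0, ?_, ?_⟩
  · rw [injective_iff_map_eq_one]
    intro w hw
    have key : ∀ x : Fin 3 → ℝ, (((eps w : ℤˣ) : ℤ) : ℝ) • (rho3 w *ᵥ x) = x := by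
      intro x
      have h1 : rho6 w *ᵥ (Sum.elim x 0) = Sum.elim x 0 := by rw [hw, one_mulVec]
      have h2 : (((eps w : ℤˣ) : ℤ) : ℝ) • (fromBlocks (rho3 w) 0 0 (rho3 w) *ᵥ
          (Sum.elim x 0)) = Sum.elim x 0 := by
        rw [← smul_mulVec]
        exact h1
      rw [fromBlocks_mulVec] at h2
      ext i
      have := congrFun h2 (Sum.inl i)
      simpa using this
    apply eq_one_of_central
    · have hx : (![1, 0, 0] : Fin 3 → ℝ) ≠ 0 := by
        intro h
        have := congrFun h 0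
        simp at this
      have := fix6 hx (key _)
      exact this
    · have hx : (![0, 1, 0] : Fin 3 → ℝ) ≠ 0 := by
        intro h
        have := congrFun h 1
        simp at this
      have := fix6 hx (key _)
      exact this
  · intro h
    have := congrFun h (Sum.inl 0)
    simp at this
  · have he : eps (FreeGroup.of 0) = -1 := by
      unfold eps
      rw [FreeGroup.lift_apply_of]
      simp
    have h3 : rho3 (FreeGroup.of 0) *ᵥ ![1, 0, 0] = ![1, 0, 0] := by
      apply v3_inj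
      change v3 (Cm (S (FreeGroup.of 0) : unitary ℍ[ℝ]) *ᵥ ![1, 0, 0]) = _
      rw [v3_C, S_of_zero]
      ext <;> simp [v3] <;> norm_num
    rw [rho6_apply, he, smul_mulVec]
    change (((-1 : ℤˣ) : ℤ) : ℝ) • (fromBlocks (rho3 (FreeGroup.of 0)) 0 0
      (rho3 (FreeGroup.of 0)) *ᵥ Sum.elim ![1, 0, 0] 0) = _
    rw [fromBlocks_mulVec]
    ext i
    cases i with
    | inl i => simp [h3]
    | inr i => simp

/-! ### dimension 4 -/

/-- complex numbers as quaternions -/
def zc (z : ℂ) : ℍ[ℝ] := mkq z.re z.im 0 0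

theorem zc_mul (z w : ℂ) : zc (z * w) = zc z * zc w := by
  ext <;> simp [zc]

theorem zc_one : zc 1 = 1 := by
  ext <;> simp [zc]

theorem zc_mem (z : unitary ℂ) : zc z ∈ unitary ℍ[ℝ] := by
  have h := (Unitary.mem_iff.1 z.2).2
  have h1 := congrArg Complex.re h
  simp at h1
  rw [Unitary.mem_iff]
  constructor <;> ext <;> simp [zc] <;> first | linear_combination h1 | ring1

/-- the character with value `-(3 - 4 i) / 5` at the first generator -/
noncomputable def chi : F →* unitary ℂ :=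
  FreeGroup.lift (fun x => if x = 0 then ⟨⟨-3 / 5, 4 / 5⟩, by
    rw [Unitary.mem_iff]
    constructor <;> apply Complex.ext <;> simp <;> norm_num⟩ else 1)

/-- the four-dimensional representation `v ↦ S w * v * chi w` -/
noncomputable def rho4 : F →* Matrix (Fin 4) (Fin 4) ℝ where
  toFun w := Lm (S w : unitary ℍ[ℝ]) * Rm (zc (chi w : unitary ℂ))
  map_one' := by
    rw [map_one, map_one]
    change Lm 1 * Rm (zc 1) = 1
    rw [zc_one, L_one, R_one, one_mul]
  map_mul' a b := by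
    rw [map_mul, map_mul]
    change Lm ((S a : unitary ℍ[ℝ]) * (S b : unitary ℍ[ℝ])) *
      Rm (zc ((chi a : unitary ℂ) * (chi b : unitary ℂ))) = _
    rw [mul_comm ((chi a : unitary ℂ) : ℂ), zc_mul, R_mul, L_mul]
    rw [mul_assoc (Lm _) (Lm _), ← mul_assoc (Lm ((S b : unitary ℍ[ℝ]) : ℍ[ℝ])) (Rm _),
      LR_comm (S b : unitary ℍ[ℝ])]
    simp only [mul_assoc]

theorem rho4_apply (w : F) :
    rho4 w = Lm (S w : unitary ℍ[ℝ]) * Rm (zc (chi w : unitary ℂ)) := rfl

theorem v4_rho4 (w : F) (x : Fin 4 → ℝ) :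
    v4 (rho4 w *ᵥ x) = (S w : unitary ℍ[ℝ]) * v4 x * zc (chi w : unitary ℂ) := by
  rw [rho4_apply, ← mulVec_mulVec, v4_L, v4_R, mul_assoc]

theorem rho4_LC : LC rho4 := by
  constructor
  · intro w
    rw [rho4_apply]
    exact mul_mem (L_mem _) (R_mem ⟨zc (chi w : unitary ℂ), zc_mem _⟩)
  · intro w₁ w₂ x hx e₁ e₂
    have f₁ := congrArg v4 e₁
    have f₂ := congrArg v4 e₂
    rw [v4_rho4] at f₁ f₂
    have hv := v4_ne hx
    apply S_comm
    have hz : ∀ w, zc (chi w : unitary ℂ) ≠ 0 := by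
      intro w h0
      have := (Unitary.mem_iff.1 (zc_mem (chi w))).2
      rw [h0, zero_mul] at this
      exact zero_ne_one this
    have hzz : zc (chi w₁ : unitary ℂ) * zc (chi w₂ : unitary ℂ) =
        zc (chi w₂ : unitary ℂ) * zc (chi w₁ : unitary ℂ) := by
      rw [← zc_mul, mul_comm, zc_mul]
    have hz1 := hz w₁
    have hz2 := hz w₂
    generalize zc (chi w₁ : unitary ℂ) = z₁ at *
    generalize zc (chi w₂ : unitary ℂ) = z₂ at *
    generalize ((S w₁ : unitary ℍ[ℝ]) : ℍ[ℝ]) = p₁ at *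
    generalize ((S w₂ : unitary ℍ[ℝ]) : ℍ[ℝ]) = p₂ at *
    have g₁ : p₁ * p₂ * (v4 x * (z₂ * z₁)) = v4 x := by
      calc p₁ * p₂ * (v4 x * (z₂ * z₁)) = p₁ * (p₂ * v4 x * z₂) * z₁ := by
            simp only [mul_assoc]
        _ = v4 x := by rw [f₂, f₁]
    have g₂ : p₂ * p₁ * (v4 x * (z₁ * z₂)) = v4 x := by
      calc p₂ * p₁ * (v4 x * (z₁ * z₂)) = p₂ * (p₁ * v4 x * z₁) * z₂ := by
            simp only [mul_assoc]
        _ = v4 x := by rw [f₁, f₂]
    rw [hzz] at g₂
    exact mul_right_cancel₀ (mul_ne_zero hv (mul_ne_zero hz2 hz1)) (g₁.trans g₂.symm)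

theorem good4 : Good (Fin 4) := by
  refine ⟨rho4, ?_, rho4_LC, FreeGroup.of 0, ![1, 0, 0, 0], ?_, ?_⟩
  · rw [injective_iff_map_eq_one]
    intro w hw
    have key : ∀ x : Fin 4 → ℝ, (S w : unitary ℍ[ℝ]) * v4 x * zc (chi w : unitary ℂ) = v4 x := by
      intro x
      rw [← v4_rho4, hw, one_mulVec]
    have k1 := key ![1, 0, 0, 0]
    have e1 : v4 ![1, 0, 0, 0] = 1 := by ext <;> simp [v4]
    rw [e1, mul_one] at k1
    have hz := (Unitary.mem_iff.1 (zc_mem (chi w))).2
    have hS : ((S w : unitary ℍ[ℝ]) : ℍ[ℝ]) = star (zc (chi w : unitary ℂ)) := by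
      calc ((S w : unitary ℍ[ℝ]) : ℍ[ℝ]) = (S w : unitary ℍ[ℝ]) *
            (zc (chi w : unitary ℂ) * star (zc (chi w : unitary ℂ))) := by rw [hz, mul_one]
        _ = star (zc (chi w : unitary ℂ)) := by rw [← mul_assoc, k1, one_mul]
    have hcomm : ∀ x : Fin 4 → ℝ, v4 x * (S w : unitary ℍ[ℝ]) = (S w : unitary ℍ[ℝ]) * v4 x := by
      intro x
      have h := key x
      have h2 := congrArg (fun y => y * star (zc (chi w : unitary ℂ))) h
      simp only [mul_assoc, hz, mul_one] at h2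
      rw [hS] at h2 ⊢
      exact h2.symm
    apply eq_one_of_central
    · have := hcomm ![0, 1, 0, 0]
      have e : v4 ![0, 1, 0, 0] = mkq (0 : ℝ) 1 0 0 := by ext <;> simp [v4]
      rw [e] at this
      exact this.symm
    · have := hcomm ![0, 0, 1, 0]
      have e : v4 ![0, 0, 1, 0] = mkq (0 : ℝ) 0 1 0 := by ext <;> simp [v4]
      rw [e] at this
      exact this.symm
  · intro h
    have := congrFun h 0
    simp at this
  · apply v4_inj
    rw [v4_rho4, S_of_zero]
    have hc : ((chi (FreeGroup.of 0) : unitary ℂ) : ℂ) = ⟨-3 / 5, 4 / 5⟩ := by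
      unfold chi
      rw [FreeGroup.lift_apply_of]
      simp
    rw [hc]
    ext <;> simp [v4, zc] <;> norm_num

/-! ### all dimensions -/

theorem good_add_three {n : ℕ} (h : Good (Fin n)) : Good (Fin (n + 3)) :=
  (h.dsum rho3_LC).reindex finSumFinEquiv

theorem good_all (n : ℕ) (hn : 6 ≤ n) : Good (Fin n) := by
  have h6 : Good (Fin 6) := good6.reindex finSumFinEquiv
  have h7 : Good (Fin 7) := good_add_three good4
  have h8 : Good (Fin 8) := (good4.dsum rho4_LC).reindex finSumFinEquiv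
  induction n using Nat.strong_induction_on with
  | _ n ih =>
    rcases Nat.lt_or_ge n 9 with h | h
    · interval_cases n
      · exact h6
      · exact h7
      · exact h8
    · obtain ⟨m, rfl⟩ : ∃ m, n = m + 3 := ⟨n - 3, by omega⟩
      exact good_add_three (ih m (by omega) (by omega))

end Pool.Agent.R450.QF
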